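import Pool.Agent.N332.GK.Defs
import Pool.Agent.N279.LS.Curve5

/-! Project GK: the curve for all `k ≥ 6`. -/

set_option autoImplicit false

namespace Pool.Agent.N655.GK6

/-- C6 (from D6, E6 as hypotheses) -/
theorem curve6
    (D6 : ∀ {Y η s E : ℝ}, 0 ≤ Y → Y ≤ 5 / 24 → 0 ≤ η → η ≤ 1 / 6 → 0 ≤ s →
      2 * s + η + 3 / 10 * Y ≤ 1 →
      E ≤ 1 + s * Y + s * (s + η) / 2 * Y ^ 2 +
        (s * (s + η) * (s + 2 * η) / 6 + 3 / 1000) * Y ^ 3 →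
      (E + Y * (1 + Y / 2)) * ((1 / 2 + s) + (1 + (1 - η) * Y) * (1 - Y ^ 2 / 2) / 2) ≤
        (s * E / (1 - η * Y) + 1 + Y) * (1 + (1 - η) * Y))
    (E6 : ∀ {Y η s : ℝ}, 0 ≤ Y → Y ≤ 5 / 24 → 0 < η → η ≤ 1 / 6 → 0 ≤ s → 2 * s + η ≤ 1 →
      (1 - η * Y) ^ (-(s / η)) ≤ 1 + s * Y + s * (s + η) / 2 * Y ^ 2 +
        (s * (s + η) * (s + 2 * η) / 6 + 3 / 1000) * Y ^ 3)
    {Y Y1 η s : ℝ} (hY0 : 0 ≤ Y) (hY : Y ≤ Y1) (hY1 : Y1 ≤ 5 / 24) (hη0 : 0 < η)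
    (hη1 : η ≤ 1 / 6) (hs0 : 0 ≤ s) (hs1 : 2 * s + η ≤ 1 - 3 / 10 * Y1) :
    (1 + (1 - η) * Y) ^ ((1 / 2 + s) / (1 - η)) * Real.exp ((Y - Y ^ 3 / 6) / 2) ≤
      (1 - η * Y) ^ (-(s / η)) + Y * (1 + Y / 2) := by
  have h := Pool.Agent.N279.LS.curve_gen (η := η) (s := s) (y0 := Y1) (q := 2)
    (N := fun y => Real.exp (y - y ^ 3 / 6))
    (N' := fun y => (1 - y ^ 2 / 2) * Real.exp (y - y ^ 3 / 6)) hη0 (by linarith)
    (by linarith) hs0 (by norm_num) (fun y _ => Real.exp_pos _) (by norm_num) ?_ ?_ (Y := Y)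
    ⟨hY0, hY⟩
  · have e : (fun y : ℝ => Real.exp (y - y ^ 3 / 6)) Y ^ ((1 : ℝ) / 2) =
        Real.exp ((Y - Y ^ 3 / 6) / 2) := by
      simp only
      rw [← Real.exp_mul]
      congr 1
      ring
    rw [e] at h
    exact h
  · intro y _
    have h1 : HasDerivAt (fun y : ℝ => y - y ^ 3 / 6) (1 - y ^ 2 / 2) y := by
      have h2 := (hasDerivAt_id y).sub ((hasDerivAt_pow 3 y).div_const 6)
      refine h2.congr_deriv ?_
      push_cast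
      ring
    have h3 := h1.exp
    refine h3.congr_deriv ?_
    ring
  · intro y hy
    have h1 := E6 hy.1 (hy.2.trans hY1) hη0 hη1 hs0 (by linarith [hy.1, hy.2])
    have h2 := D6 hy.1 (hy.2.trans hY1) hη0.le hη1 hs0 (by linarith [hy.1, hy.2]) h1
    have h3 := mul_le_mul_of_nonneg_right h2 (Real.exp_pos (y - y ^ 3 / 6)).le
    calc ((1 - η * y) ^ (-(s / η)) + y * (1 + y / 2)) *
        ((1 / 2 + s) * Real.exp (y - y ^ 3 / 6) +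
          (1 + (1 - η) * y) * ((1 - y ^ 2 / 2) * Real.exp (y - y ^ 3 / 6)) / 2)
        = ((1 - η * y) ^ (-(s / η)) + y * (1 + y / 2)) *
          ((1 / 2 + s) + (1 + (1 - η) * y) * (1 - y ^ 2 / 2) / 2) *
            Real.exp (y - y ^ 3 / 6) := by ring
      _ ≤ (s * (1 - η * y) ^ (-(s / η)) / (1 - η * y) + 1 + y) * (1 + (1 - η) * y) *
            Real.exp (y - y ^ 3 / 6) := h3
      _ = (s * (1 - η * y) ^ (-(s / η)) / (1 - η * y) + 1 + y) *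
            ((1 + (1 - η) * y) * Real.exp (y - y ^ 3 / 6)) := by ring

end Pool.Agent.N655.GK6
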