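import Pool.Agent.N869.GK.StmM

/-!
# Project GK: the number of the stable sets for several curves
-/

set_option autoImplicit false
set_option linter.all false

open scoped Classical

namespace Pool.Agent.N655.GK

open Finset
open Pool.Agent.N869.GK

section

variable {ι C : Type} [Fintype ι] [Fintype C]

/-- restriction to the copies of the curve `k` -/
def res (κ : ι → C) (k : C) (ζ : Dc ι) : Dc {x // κ x = k} := fun x => ζ x.1

/-- extension by zero -/
noncomputable def ex (κ : ι → C) (k : C) (η : Dc {x // κ x = k}) : Dc ι :=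
  fun x => if h : κ x = k then η ⟨x, h⟩ else 0

theorem res_ex (κ : ι → C) (k : C) (η : Dc {x // κ x = k}) : res κ k (ex κ k η) = η := by
  funext x
  unfold res ex
  rw [dif_pos x.2]

theorem res_rs (κ : ι → C) (k : C) (ζ : Dc ι) : res κ k (rs κ k ζ) = res κ k ζ := by
  funext x
  unfold res rs
  rw [if_pos x.2]

theorem ex_res (κ : ι → C) (k : C) (ζ : Dc ι) : ex κ k (res κ k ζ) = rs κ k ζ := by
  funext x
  unfold ex res rs
  split_ifs <;> rfl

theorem ex_inj (κ : ι → C) (k : C) : Function.Injective (ex κ k) := by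
  intro a b h
  rw [← res_ex κ k a, h, res_ex]

theorem mem_im {α β : Type} (d : DecidableEq β) (f : α → β) (s : Finset α) (b : β) :
    b ∈ @Finset.image α β d f s ↔ ∃ a ∈ s, f a = b := @Finset.mem_image α β d f s b

theorem mem_rd (κ : ι → C) (k : C) (Y : Finset (Dc ι)) (η : Dc {x // κ x = k}) :
    η ∈ rd κ k Y ↔ ∃ ζ ∈ Y, res κ k ζ = η := by
  unfold rd
  exact mem_im _ _ _ _

theorem rs_eq_self {κ : ι → C} {k : C} {ζ : Dc ι} (h : ζ ∈ Sp (cp κ k)) : rs κ k ζ = ζ := by
  unfold Sp cp at h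
  rw [mem_filter] at h
  funext x
  unfold rs
  split_ifs with hx
  · rfl
  · exact (h.2 x (by simp [hx])).symm

theorem mem_PZ (κ : ι → C) (Y : C → Finset (Dc ι)) (ζ : Dc ι) :
    ζ ∈ PZ κ Y (fun _ => True) ↔ ∀ k, rs κ k ζ ∈ Y k := by
  unfold PZ Sp
  simp

/-- the product -/
noncomputable def Phi (κ : ι → C) (Z : ∀ k, Finset (Dc {x // κ x = k})) : Finset (Dc ι) :=
  univ.filter fun ζ => ∀ k, res κ k ζ ∈ Z k

theorem mem_Phi (κ : ι → C) (Z : ∀ k, Finset (Dc {x // κ x = k})) (ζ : Dc ι) :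
    ζ ∈ Phi κ Z ↔ ∀ k, res κ k ζ ∈ Z k := by
  unfold Phi
  simp

theorem phi_rd (κ : ι → C) (Y : C → Finset (Dc ι)) (hY : ∀ k, Y k ⊆ Sp (cp κ k)) :
    PZ κ Y (fun _ => True) = Phi κ fun k => rd κ k (Y k) := by
  ext ζ
  rw [mem_PZ, mem_Phi]
  refine forall_congr' fun k => ?_
  rw [mem_rd]
  constructor
  · intro h
    exact ⟨_, h, res_rs κ k ζ⟩
  · rintro ⟨ζ', h1, h2⟩
    have h3 := rs_eq_self (hY k h1)
    rw [← ex_res, h2, ex_res] at h3
    rw [h3]
    exact h1

theorem card_sub (κ : ι → C) (k : C) : Fintype.card {x // κ x = k} = mc κ k := by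
  unfold mc cp
  exact Fintype.card_subtype _

theorem rd_ex (κ : ι → C) (k : C) (Z : Finset (Dc {x // κ x = k})) :
    rd κ k (Z.image (ex κ k)) = Z := by
  ext η
  rw [mem_rd]
  constructor
  · rintro ⟨ζ, h1, rfl⟩
    rw [mem_image] at h1
    obtain ⟨η, h1, rfl⟩ := h1
    rw [res_ex]
    exact h1
  · intro h
    exact ⟨_, mem_image_of_mem _ h, res_ex κ k η⟩

theorem ms_ex (κ : ι → C) (k : C) {Z : Finset (Dc {x // κ x = k})} (h : MS univ Z) :
    MS (cp κ k) (Z.image (ex κ k)) := by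
  obtain ⟨h1, h2, h3⟩ := h
  refine ⟨?_, ?_, ?_⟩
  · intro ζ hζ
    rw [mem_image] at hζ
    obtain ⟨η, _, rfl⟩ := hζ
    unfold Sp
    rw [mem_filter]
    refine ⟨mem_univ _, fun x hx => ?_⟩
    unfold ex
    rw [dif_neg]
    intro h
    apply hx
    unfold cp
    rw [mem_filter]
    exact ⟨mem_univ _, h⟩
  · rw [card_image_of_injective _ (ex_inj κ k), h2, card_univ, card_sub]
    rfl
  · intro ζ hζ ζ' hζ'
    rw [mem_image] at hζ hζ'
    obtain ⟨η, hη, rfl⟩ := hζ
    obtain ⟨η', hη', rfl⟩ := hζ'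
    rw [← h3 η hη η' hη']
    unfold Qs
    have h4 : ∀ x : {x // κ x = k}, ex κ k η x.1 = η x ∧ ex κ k η' x.1 = η' x := fun x =>
      ⟨congrFun (res_ex κ k η) x, congrFun (res_ex κ k η') x⟩
    have h5 : ∑ x ∈ cp κ k, om ((ex κ k η x).2 + (ex κ k η' x).2) ((ex κ k η x).1 +
        (ex κ k η' x).1) = ∑ x : {x // κ x = k}, om ((ex κ k η x.1).2 + (ex κ k η' x.1).2)
        ((ex κ k η x.1).1 + (ex κ k η' x.1).1) := by
      unfold cp
      exact Finset.sum_subtype _ (fun x => by simp) _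
    rw [h5]
    refine Finset.sum_congr rfl fun x _ => ?_
    rw [(h4 x).1, (h4 x).2]

theorem phi_inj (κ : ι → C) {Z Z' : ∀ k, Finset (Dc {x // κ x = k})} (h : ∀ k, (Z k).Nonempty)
    (h' : ∀ k, (Z' k).Nonempty) (he : Phi κ Z = Phi κ Z') : Z = Z' := by
  have key : ∀ Z Z' : ∀ k, Finset (Dc {x // κ x = k}), (∀ k, (Z k).Nonempty) →
      Phi κ Z = Phi κ Z' → ∀ k, Z k ⊆ Z' k := by
    intro Z Z' h he k η hη
    choose f hf using h
    let g : ∀ k', Dc {x // κ x = k'} := fun k' => if hk : k' = k then hk ▸ η else f k'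
    have hg : ∀ k', g k' ∈ Z k' := by
      intro k'
      by_cases hk : k' = k
      · subst hk
        simp only [g, dif_pos]
        exact hη
      · simp only [g, dif_neg hk]
        exact hf k'
    let ζ : Dc ι := fun x => g (κ x) ⟨x, rfl⟩
    have hζ : ∀ k', res κ k' ζ = g k' := by
      intro k'
      funext x
      obtain ⟨x, rfl⟩ := x
      rfl
    have h1 : ζ ∈ Phi κ Z := by
      rw [mem_Phi]
      intro k'
      rw [hζ]
      exact hg k'
    rw [he, mem_Phi] at h1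
    have h2 := h1 k
    rw [hζ] at h2
    have h3 : g k = η := by
      simp only [g, dif_pos]
    rwa [h3] at h2
  funext k
  exact Finset.Subset.antisymm (key Z Z' h he k) (key Z' Z h' he.symm k)

end

theorem t_COUNTM : Pool.Agent.N869.GK.M.S_COUNTM := by
  intro hUNL hFAM hPROD hCOUNT ι C _ _ κ
  have hX : ∀ k, ((univ.filter fun Z : Finset (Dc {x // κ x = k}) => MS univ Z ∧ Stb Z).card : ℝ) =
      (4 : ℝ) ^ mc κ k * mom (mc κ k) := by
    intro k
    have h := hCOUNT hUNL {x // κ x = k}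
    rw [card_sub] at h
    rw [← h]
    congr 2
    exact Finset.ext fun Z => by simp only [Finset.mem_filter, Finset.mem_univ, true_and]
  have hne : ∀ k, ∀ Z : Finset (Dc {x // κ x = k}), MS univ Z → Z.Nonempty := by
    intro k Z hZ
    rw [← card_pos, hZ.2.1]
    positivity
  have himg : (univ.filter fun Z : Finset (Dc ι) => MS univ Z ∧ Pool.Agent.N869.GK.M.StbM κ Z) =
      (Fintype.piFinset fun k => univ.filter fun Z : Finset (Dc {x // κ x = k}) =>
        MS univ Z ∧ Stb Z).image (Phi κ) := by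
    ext Z
    rw [mem_filter, mem_image]
    have h0 := hPROD hUNL hFAM ι C κ Z
    constructor
    · rintro ⟨_, h⟩
      obtain ⟨Y, hY, rfl⟩ := h0.1 h
      refine ⟨fun k => rd κ k (Y k), ?_, (phi_rd κ Y fun k => (hY k).1.1).symm⟩
      rw [Fintype.mem_piFinset]
      intro k
      rw [mem_filter]
      exact ⟨mem_univ _, (hY k).2⟩
    · rintro ⟨Z', hZ', rfl⟩
      rw [Fintype.mem_piFinset] at hZ'
      refine ⟨mem_univ _, h0.2 ⟨fun k => (Z' k).image (ex κ k), ?_, ?_⟩⟩
      · intro k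
        have h1 := (mem_filter.1 (hZ' k)).2
        rw [rd_ex]
        exact ⟨ms_ex κ k h1.1, h1⟩
      · rw [phi_rd κ _ fun k => (ms_ex κ k (mem_filter.1 (hZ' k)).2.1).1]
        congr 1
        funext k
        rw [rd_ex]
  rw [himg, card_image_of_injOn, Fintype.card_piFinset, Nat.cast_prod]
  · exact Finset.prod_congr rfl fun k _ => hX k
  · intro Z hZ Z' hZ' he
    rw [mem_coe, Fintype.mem_piFinset] at hZ hZ'
    exact phi_inj κ (fun k => hne k _ (mem_filter.1 (hZ k)).2.1)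
      (fun k => hne k _ (mem_filter.1 (hZ' k)).2.1) he

end Pool.Agent.N655.GK
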